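import Pool.Agent.H92.SG.Stmts

/-!
Board sg7, module L4: the form of a product of maps `1 + P_j Q_j`.
-/

set_option autoImplicit false

namespace Pool.Agent.H5.SG

open Pool.Agent.H92.SG

/-- The telescoping identity. -/
theorem eps_exists {O V : Type} [CommRing O] [AddCommGroup V] [Module O V] {d : ℕ} :
    ∀ (s : ℕ) (P : Fin s → (Fin d → O) →ₗ[O] V) (Q : Fin s → V →ₗ[O] (Fin d → O)) (x : V),
      ∃ e : Fin s → (Fin d → O),
        (List.ofFn fun j => (1 : Module.End O V) + P j ∘ₗ Q j).prod x - x = ∑ j, P j (e j) ∧
        ∀ j, e j = Q j x + ∑ i, if j < i then Q j (P i (e i)) else 0 := by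
  intro s
  induction s with
  | zero =>
    intro P Q x
    refine ⟨fun j => 0, ?_, fun j => j.elim0⟩
    simp
  | succ s ih =>
    intro P Q x
    obtain ⟨e, he1, he2⟩ := ih (fun j => P j.succ) (fun j => Q j.succ) x
    set κ' : Module.End O V :=
      (List.ofFn fun j : Fin s => (1 : Module.End O V) + P j.succ ∘ₗ Q j.succ).prod with hκ'
    refine ⟨Fin.cons (Q 0 (κ' x)) e, ?_, ?_⟩
    · rw [List.ofFn_succ, List.prod_cons, ← hκ', Fin.sum_univ_succ]
      simp only [Fin.cons_zero, Fin.cons_succ]
      rw [← he1]
      simp only [Module.End.mul_apply, LinearMap.add_apply, Module.End.one_apply,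
        LinearMap.comp_apply]
      abel
    · intro j
      refine Fin.cases ?_ (fun j => ?_) j
      · rw [Fin.sum_univ_succ]
        simp only [Fin.cons_zero, Fin.cons_succ, lt_irrefl, if_false, Fin.succ_pos, if_true,
          zero_add]
        have h : κ' x = x + ∑ i, P i.succ (e i) := by rw [← he1]; abel
        rw [h, map_add, map_sum]
      · rw [Fin.sum_univ_succ]
        simp only [Fin.cons_succ, Fin.not_lt_zero, if_false, zero_add, Fin.succ_lt_succ_iff]
        exact he2 j

theorem sesq_eq {O : Type} [CommRing O] {κ : Type} [Fintype κ] (c : O →+* O)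
    (M : Matrix κ κ O) (u v : κ → O) : sesq c M u v = (fun p => c (u p)) ⬝ᵥ (M.mulVec v) := by
  simp only [sesq, dotProduct, Matrix.mulVec, Finset.mul_sum]
  refine Finset.sum_congr rfl fun p _ => Finset.sum_congr rfl fun q _ => by ring

theorem L4_thm : L4Stmt := by
  intro O _ c V _ _ d s P Q W hW U hU hP
  classical
  -- the strictly upper triangular matrix
  let A : Matrix (Fin s × Fin d) (Fin s × Fin d) O := fun p q =>
    if p.1 < q.1 then (Q p.1 (P q.1 (fun j => if q.2 = j then 1 else 0))) p.2 else 0
  have hA : ∀ (e : Fin s × Fin d → O) (p : Fin s × Fin d),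
      (A.mulVec e) p = ∑ i, if p.1 < i then (Q p.1 (P i (fun k => e (i, k)))) p.2 else 0 := by
    intro e p
    rw [Matrix.mulVec, dotProduct, Fintype.sum_prod_type]
    refine Finset.sum_congr rfl fun i _ => ?_
    by_cases h : p.1 < i
    · simp only [A, h, if_true]
      have h1 := LinearMap.pi_apply_eq_sum_univ (Q p.1 ∘ₗ P i) (fun k => e (i, k))
      have h2 := congrFun h1 p.2
      simp only [LinearMap.comp_apply, Finset.sum_apply, Pi.smul_apply, smul_eq_mul] at h2
      rw [h2]
      exact Finset.sum_congr rfl fun l _ => by ring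
    · simp only [A, h, if_false, zero_mul, Finset.sum_const_zero]
  have hdet : (1 - A).det = 1 := by
    have hbt : (1 - A).BlockTriangular Prod.fst := by
      intro i j hij
      have hne : i ≠ j := fun h => by rw [h] at hij; exact lt_irrefl _ hij
      have h0 : A i j = 0 := if_neg (not_lt.2 (le_of_lt hij))
      rw [Matrix.sub_apply, Matrix.one_apply_ne hne, h0, sub_zero]
    rw [hbt.det_fintype]
    refine Finset.prod_eq_one fun k _ => ?_
    have : (1 - A).toSquareBlock Prod.fst k = 1 := by
      ext ⟨i, hi⟩ ⟨j, hj⟩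
      simp only [Matrix.toSquareBlock_def, Matrix.of_apply, Matrix.sub_apply]
      have h0 : A i j = 0 := by
        simp only [A]; rw [if_neg (by rw [hi, hj]; exact lt_irrefl _)]
      rw [h0, sub_zero, Matrix.one_apply, Matrix.one_apply]
      simp only [Subtype.mk.injEq]
    rw [this, Matrix.det_one]
  set T : Matrix (Fin s × Fin d) (Fin s × Fin d) O := (1 - A)⁻¹ with hT
  have hT1 : T * (1 - A) = 1 := Matrix.nonsing_inv_mul _ (by rw [hdet]; exact isUnit_one)
  have hTdet : T.det = 1 := by
    have := congrArg Matrix.det hT1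
    rw [Matrix.det_mul, hdet, mul_one, Matrix.det_one] at this
    exact this
  let D : Matrix (Fin s × Fin d) (Fin s × Fin d) O :=
    (Matrix.blockDiagonal U).submatrix (Equiv.prodComm _ _) (Equiv.prodComm _ _)
  have hD : ∀ (v : Fin s × Fin d → O) (p : Fin s × Fin d),
      (D.mulVec v) p = ((U p.1).mulVec fun k => v (p.1, k)) p.2 := by
    intro v p
    rw [Matrix.mulVec, dotProduct, Fintype.sum_prod_type]
    rw [Finset.sum_eq_single p.1]
    · simp only [D, Matrix.submatrix_apply, Equiv.prodComm_apply, Prod.swap, Matrix.mulVec,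
        dotProduct]
      refine Finset.sum_congr rfl fun l _ => ?_
      rw [Matrix.blockDiagonal_apply_eq]
    · intro i _ hi
      refine Finset.sum_eq_zero fun l _ => ?_
      simp only [D, Matrix.submatrix_apply, Equiv.prodComm_apply, Prod.swap]
      rw [Matrix.blockDiagonal_apply_ne _ _ _ (Ne.symm hi), zero_mul]
    · intro h; exact absurd (Finset.mem_univ _) h
  have hDdet : IsUnit D.det := by
    simp only [D]
    rw [Matrix.det_submatrix_equiv_self, Matrix.det_blockDiagonal]
    exact IsUnit.prod_univ_iff.2 hU
  refine ⟨(T.map c).transpose * D, ?_, ?_⟩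
  · rw [Matrix.det_mul, Matrix.det_transpose]
    have : (T.map c).det = 1 := by
      have := RingHom.map_det c T
      rw [hTdet, map_one] at this
      exact this.symm
    rw [this, one_mul]
    exact hDdet
  · intro x y
    obtain ⟨e, he1, he2⟩ := eps_exists s P Q x
    rw [he1]
    -- additivity
    have hW0 : ∀ y, W 0 y = 0 := by
      intro y
      have := hW 0 0 y
      rw [add_zero] at this
      exact left_eq_add.1 this
    let Wy : V →+ O := { toFun := fun v => W v y, map_zero' := hW0 y, map_add' := fun a b => hW a b y }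
    have hsum : W (∑ j, P j (e j)) y = ∑ j, W (P j (e j)) y := map_sum Wy _ _
    rw [hsum]
    -- the vector of coefficients
    have hE : T.mulVec (fun p => Q p.1 x p.2) = fun p => e p.1 p.2 := by
      have h1 : (1 - A).mulVec (fun p => e p.1 p.2) = fun p => Q p.1 x p.2 := by
        rw [Matrix.sub_mulVec, Matrix.one_mulVec]
        funext p
        rw [Pi.sub_apply, hA]
        have h2 := congrFun (he2 p.1) p.2
        simp only [Pi.add_apply, Finset.sum_apply] at h2
        rw [h2]
        have h3 : ∀ i, (if p.1 < i then Q p.1 (P i (e i)) else 0) p.2 =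
            if p.1 < i then (Q p.1 (P i (fun k => e i k))) p.2 else 0 := by
          intro i; split_ifs <;> rfl
        simp only [h3]
        ring
      rw [← h1, Matrix.mulVec_mulVec, hT1, Matrix.one_mulVec]
    rw [sesq_eq, ← Matrix.mulVec_mulVec, Matrix.dotProduct_mulVec, Matrix.vecMul_transpose]
    have hS : (T.map c).mulVec (fun p : Fin s × Fin d => c (Q p.1 x p.2)) =
        fun p => c (e p.1 p.2) := by
      funext p
      have h1 := RingHom.map_mulVec c T (fun p => Q p.1 x p.2) p
      rw [hE] at h1
      exact h1.symm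
    rw [hS, dotProduct, Fintype.sum_prod_type]
    refine Finset.sum_congr rfl fun j _ => ?_
    rw [hP]
    refine Finset.sum_congr rfl fun k _ => ?_
    rw [hD]

end Pool.Agent.H5.SG
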