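import Pool.Agent.H92.SG.Stmts

/-!
Board sg7, module TWA: basic properties of the twisted action, I.
-/

set_option autoImplicit false

namespace Pool.Agent.H5.SG

open Pool.Agent.H92.SG

/-- Induction over generators and their inverses. -/
theorem B_ind2 {p : B → Prop} (h1 : p 1) (hs : ∀ i, p (σ i)) (hsi : ∀ i, p (σ i)⁻¹)
    (hm : ∀ x y, p x → p y → p (x * y)) (x : B) : p x := by
  have : p x ∧ p x⁻¹ := by
    refine B_induction (p := fun x => p x ∧ p x⁻¹) ⟨h1, by rw [inv_one]; exact h1⟩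
      (fun i => ⟨hs i, hsi i⟩) ?_ ?_ x
    · rintro x y ⟨hx, hx'⟩ ⟨hy, hy'⟩
      exact ⟨hm _ _ hx hy, by rw [mul_inv_rev]; exact hm _ _ hy' hx'⟩
    · rintro x ⟨hx, hx'⟩
      exact ⟨hx', by rw [inv_inv]; exact hx⟩
  exact this.1

section
variable {R : Type} [CommRing R] {m : ℕ}

theorem Sv_add (e : AddChar (ZMod m) R) (a : ZMod m) (v w : V2 R) :
    Sv e a (v + w) = Sv e a v + Sv e a w := by
  funext i; fin_cases i <;> simp [Sv] <;> ring

theorem Sv_smul (e : AddChar (ZMod m) R) (a : ZMod m) (r : R) (v : V2 R) :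
    Sv e a (r • v) = r • Sv e a v := by
  funext i; fin_cases i <;> simp [Sv] <;> ring

theorem Gm_apply (t : Rˣ) (e : AddChar (ZMod m) R) (a : ZMod m) (v : V2 R) :
    Gm t e a v = (t : R) • Sv e a v := by
  funext i; fin_cases i <;> simp [Gm, Sv]

theorem Gm_inv_apply (t : Rˣ) (e : AddChar (ZMod m) R) (a : ZMod m) (v : V2 R) :
    (Gm t e a)⁻¹ v = ((t⁻¹ : Rˣ) : R) • Sv e a v := by
  have : (Gm t e a)⁻¹ v = ![((t⁻¹ : Rˣ) : R) * (e a * v 1), ((t⁻¹ : Rˣ) : R) * (e (-a) * v 0)] := rfl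
  rw [this]
  funext i; fin_cases i <;> simp [Sv]

theorem e_two (e : AddChar (ZMod m) R) (a b : ZMod m) : e (2 * b - a) = e b * e (-a) * e b := by
  rw [← AddChar.map_add_eq_mul, ← AddChar.map_add_eq_mul]
  congr 1; ring

theorem e_two' (e : AddChar (ZMod m) R) (a b : ZMod m) :
    e (-(2 * b - a)) = e (-b) * e a * e (-b) := by
  rw [← AddChar.map_add_eq_mul, ← AddChar.map_add_eq_mul]
  congr 1; ring

theorem Gm_conj (t : Rˣ) (e : AddChar (ZMod m) R) (a b : ZMod m) :
    (Gm t e b)⁻¹ * Gm t e a * Gm t e b = Gm t e (2 * b - a) := by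
  have ht : ((t⁻¹ : Rˣ) : R) * (t : R) = 1 := by simp
  ext v i
  simp only [LinearEquiv.mul_apply, Gm_apply, Gm_inv_apply]
  fin_cases i
  · simp only [Sv, Pi.smul_apply, smul_eq_mul, Fin.zero_eta, Fin.isValue, Matrix.cons_val_zero,
      Matrix.cons_val_one, e_two]
    linear_combination ((t : R) * e b * e (-a) * e b * v 1) * ht
  · simp only [Sv, Pi.smul_apply, smul_eq_mul, Fin.mk_one, Fin.isValue, Matrix.cons_val_zero,
      Matrix.cons_val_one, e_two']
    linear_combination ((t : R) * e (-b) * e a * e (-b) * v 0) * ht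

theorem Gm_conj' (t : Rˣ) (e : AddChar (ZMod m) R) (a b : ZMod m) :
    Gm t e b * Gm t e a * (Gm t e b)⁻¹ = Gm t e (2 * b - a) := by
  have ht : ((t⁻¹ : Rˣ) : R) * (t : R) = 1 := by simp
  ext v i
  simp only [LinearEquiv.mul_apply, Gm_apply, Gm_inv_apply]
  fin_cases i
  · simp only [Sv, Pi.smul_apply, smul_eq_mul, Fin.zero_eta, Fin.isValue, Matrix.cons_val_zero,
      Matrix.cons_val_one, e_two]
    linear_combination ((t : R) * e b * e (-a) * e b * v 1) * ht
  · simp only [Sv, Pi.smul_apply, smul_eq_mul, Fin.mk_one, Fin.isValue, Matrix.cons_val_zero,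
      Matrix.cons_val_one, e_two']
    linear_combination ((t : R) * e (-b) * e a * e (-b) * v 0) * ht

end

theorem smul_fun {R : Type} [CommRing R] (r : R) (f : ℕ → V2 R) (j : ℕ) :
    (r • f) j = r • f j := rfl

theorem hur_σ {Γ V : Type} [Group Γ] [AddCommGroup V] [DistribMulAction Γ V] (i : ℕ) :
    hur Γ V (σ i) = hurGen Γ V i := lift_σ _ _ _ i

theorem col_thm (hD : DihA) (R : Type) [CommRing R] (m : ℕ) (t : Rˣ) (e : AddChar (ZMod m) R)
    (x : B) : ∀ (a : ℕ → ZMod m) (s : ℕ → V2 R),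
    (hur (Ga R) (V2 R) x (fun i => Gm t e (a i), s)).1 = fun i => Gm t e (dih (ZMod m) x a i) := by
  refine B_ind2 (p := fun x => ∀ (a : ℕ → ZMod m) (s : ℕ → V2 R),
    (hur (Ga R) (V2 R) x (fun i => Gm t e (a i), s)).1 = fun i => Gm t e (dih (ZMod m) x a i))
    ?_ ?_ ?_ ?_ x
  · intro a s
    simp
  · intro i a s
    rw [hur_σ, hD.σ_apply]
    funext j
    simp only [hurGen, Equiv.coe_fn_mk]
    split_ifs with h1 h2
    · rfl
    · exact Gm_conj t e _ _
    · rfl
  · intro i a s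
    rw [map_inv, hur_σ, hD.σ_inv_apply]
    funext j
    show ((hurGen (Ga R) (V2 R) i).symm _).1 j = _
    simp only [hurGen, Equiv.coe_fn_symm_mk]
    split_ifs with h1 h2
    · exact Gm_conj' t e _ _
    · rfl
    · rfl
  · intro x y hx hy a s
    rw [map_mul, Equiv.Perm.mul_apply, map_mul, LinearEquiv.mul_apply]
    have h1 := hy a s
    have h2 : hur (Ga R) (V2 R) y (fun i => Gm t e (a i), s) =
        (fun i => Gm t e (dih (ZMod m) y a i), (hur (Ga R) (V2 R) y (fun i => Gm t e (a i), s)).2) :=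
      Prod.ext h1 rfl
    rw [h2, hx]

theorem tw_mul (hD : DihA) (R : Type) [CommRing R] (m : ℕ) (t : Rˣ) (e : AddChar (ZMod m) R)
    (x y : B) (a : ℕ → ZMod m) (s : ℕ → V2 R) :
    tw t e (x * y) a s = tw t e x (dih _ y a) (tw t e y a s) := by
  unfold tw
  rw [map_mul, Equiv.Perm.mul_apply]
  have h1 := col_thm hD R m t e y a s
  have h2 : hur (Ga R) (V2 R) y (fun i => Gm t e (a i), s) =
      (fun i => Gm t e (dih (ZMod m) y a i), (hur (Ga R) (V2 R) y (fun i => Gm t e (a i), s)).2) :=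
    Prod.ext h1 rfl
  rw [h2]

theorem tw_one (R : Type) [CommRing R] (m : ℕ) (t : Rˣ) (e : AddChar (ZMod m) R)
    (a : ℕ → ZMod m) (s : ℕ → V2 R) : tw t e 1 a s = s := by
  unfold tw
  rw [map_one]; rfl

theorem tw_σ (R : Type) [CommRing R] (m : ℕ) (t : Rˣ) (e : AddChar (ZMod m) R) (i : ℕ)
    (a : ℕ → ZMod m) (s : ℕ → V2 R) : tw t e (σ i) a s = fun j =>
      if j = i then s (i + 1) + s i - ((t⁻¹ : Rˣ) : R) • Sv e (a (i + 1)) (s i)
      else if j = i + 1 then ((t⁻¹ : Rˣ) : R) • Sv e (a (i + 1)) (s i) else s j := by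
  unfold tw
  rw [hur_σ]
  funext j
  simp only [hurGen, Equiv.coe_fn_mk]
  have h : ∀ v : V2 R, (Gm t e (a (i + 1)))⁻¹ • v = ((t⁻¹ : Rˣ) : R) • Sv e (a (i + 1)) v :=
    fun v => Gm_inv_apply t e _ v
  simp only [h]

theorem tw_σ_inv (R : Type) [CommRing R] (m : ℕ) (t : Rˣ) (e : AddChar (ZMod m) R) (i : ℕ)
    (a : ℕ → ZMod m) (s : ℕ → V2 R) : tw t e (σ i)⁻¹ a s = fun j =>
      if j = i then (t : R) • Sv e (a i) (s (i + 1))
      else if j = i + 1 then s i + s (i + 1) - (t : R) • Sv e (a i) (s (i + 1)) else s j := by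
  unfold tw
  rw [map_inv, hur_σ]
  funext j
  show ((hurGen (Ga R) (V2 R) i).symm _).2 j = _
  simp only [hurGen, Equiv.coe_fn_symm_mk]
  have h : ∀ v : V2 R, (Gm t e (a i)) • v = (t : R) • Sv e (a i) v :=
    fun v => Gm_apply t e _ v
  simp only [h]

theorem tw_add (hD : DihA) (R : Type) [CommRing R] (m : ℕ) (t : Rˣ) (e : AddChar (ZMod m) R)
    (x : B) : ∀ (a : ℕ → ZMod m) (s s' : ℕ → V2 R),
    tw t e x a (s + s') = tw t e x a s + tw t e x a s' := by
  refine B_ind2 (p := fun x => ∀ (a : ℕ → ZMod m) (s s' : ℕ → V2 R),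
    tw t e x a (s + s') = tw t e x a s + tw t e x a s') ?_ ?_ ?_ ?_ x
  · intro a s s'
    simp only [tw_one]
  · intro i a s s'
    simp only [tw_σ]
    funext j
    simp only [Pi.add_apply (f := s), Pi.add_apply (f := fun _ => _)]
    split_ifs
    · rw [Sv_add, smul_add]; abel
    · rw [Sv_add, smul_add]
    · rfl
  · intro i a s s'
    simp only [tw_σ_inv]
    funext j
    simp only [Pi.add_apply (f := s), Pi.add_apply (f := fun _ => _)]
    split_ifs
    · rw [Sv_add, smul_add]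
    · rw [Sv_add, smul_add]; abel
    · rfl
  · intro x y hx hy a s s'
    rw [tw_mul hD, hy, hx, ← tw_mul hD, ← tw_mul hD]

theorem tw_smul (hD : DihA) (R : Type) [CommRing R] (m : ℕ) (t : Rˣ) (e : AddChar (ZMod m) R)
    (x : B) : ∀ (a : ℕ → ZMod m) (r : R) (s : ℕ → V2 R),
    tw t e x a (r • s) = r • tw t e x a s := by
  refine B_ind2 (p := fun x => ∀ (a : ℕ → ZMod m) (r : R) (s : ℕ → V2 R),
    tw t e x a (r • s) = r • tw t e x a s) ?_ ?_ ?_ ?_ x
  · intro a r s
    simp only [tw_one]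
  · intro i a r s
    simp only [tw_σ]
    funext j
    simp only [smul_fun]
    split_ifs
    · rw [Sv_smul, smul_sub, smul_add, smul_comm r]
    · rw [Sv_smul, smul_comm r]
    · rfl
  · intro i a r s
    simp only [tw_σ_inv]
    funext j
    simp only [smul_fun]
    split_ifs
    · rw [Sv_smul, smul_comm r]
    · rw [Sv_smul, smul_sub, smul_add, smul_comm r]
    · rfl
  · intro x y hx hy a r s
    rw [tw_mul hD, hy, hx, ← tw_mul hD]

theorem TWA_thm (hD : DihA) : TwA where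
  col R _ m t e x a s := col_thm hD R m t e x a s
  one R _ m t e a s := tw_one R m t e a s
  mul R _ m t e x y a s := tw_mul hD R m t e x y a s
  σ_apply R _ m t e i a s := tw_σ R m t e i a s
  σ_inv_apply R _ m t e i a s := tw_σ_inv R m t e i a s
  add R _ m t e x a s s' := tw_add hD R m t e x a s s'
  smul R _ m t e x a r s := tw_smul hD R m t e x a r s

end Pool.Agent.H5.SG
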